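import Mathlib

/-!
# Counting colourings of graphs glued from two-terminal networks

`w A B a b` is the kernel with value `A` on the diagonal and `B` off it.  The number of extensions of a
colouring of the two ends of a path (and of some other networks) to proper colourings is such a kernel.
-/

set_option autoImplicit false

namespace Pool.Agent.H19.CR

open Finset

/-- the kernel with value `A` on the diagonal and `B` off the diagonal -/
def w {n : ℕ} (A B : ℤ) (a b : Fin n) : ℤ := if a = b then A else B

theorem w_comm {n : ℕ} (A B : ℤ) (a b : Fin n) : w A B a b = w A B b a := by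
  unfold w
  by_cases h : a = b
  · rw [if_pos h, if_pos h.symm]
  · rw [if_neg h, if_neg (fun h' => h h'.symm)]

theorem w_mul {n : ℕ} (A B C D : ℤ) (a b : Fin n) :
    w A B a b * w C D a b = w (A * C) (B * D) a b := by
  unfold w
  split_ifs <;> rfl

theorem sum_w {n : ℕ} (A B C D : ℤ) (a b : Fin n) :
    ∑ x : Fin n, w A B a x * w C D x b =
      w (A * C + (n - 1) * (B * D)) (A * D + B * C + (n - 2) * (B * D)) a b := by
  by_cases h : a = b
  · subst h
    have h1 : ∀ x : Fin n, w A B a x * w C D x a = B * D + (if x = a then A * C - B * D else 0) := by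
      intro x
      unfold w
      by_cases hx : x = a
      · subst hx; simp
      · rw [if_neg (fun h' => hx h'.symm), if_neg hx, if_neg hx]; ring
    simp only [h1, sum_add_distrib, sum_const, card_univ, Fintype.card_fin, sum_ite_eq', mem_univ,
      if_true, nsmul_eq_mul]
    simp only [w, if_true]
    ring
  · have h1 : ∀ x : Fin n, w A B a x * w C D x b =
        B * D + (if x = a then A * D - B * D else 0) + (if x = b then B * C - B * D else 0) := by
      intro x
      unfold w
      by_cases hx : x = a
      · subst hx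
        rw [if_neg h, if_neg h]; simp
      · by_cases hy : x = b
        · subst hy
          rw [if_neg (fun h' => hx h'.symm), if_neg hx]; simp
        · rw [if_neg (fun h' => hx h'.symm), if_neg hy, if_neg hx, if_neg hy]; ring
    simp only [h1, sum_add_distrib, sum_const, card_univ, Fintype.card_fin, sum_ite_eq', mem_univ,
      if_true, nsmul_eq_mul]
    simp only [w, if_neg h]
    ring

theorem sum_w_left {n : ℕ} (A B : ℤ) (b : Fin n) : ∑ x : Fin n, w A B x b = A + (n - 1) * B := by
  have h := sum_w 1 1 A B b b
  simp only [w, if_true, one_mul] at h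
  have h2 : ∀ x : Fin n, (if b = x then (1 : ℤ) else 1) = 1 := fun x => by split_ifs <;> rfl
  simp only [h2, one_mul] at h
  exact h

/-- the path with two interior vertices -/
theorem path3 {n : ℕ} (a b : Fin n) :
    ∑ x : Fin n, ∑ y : Fin n, w 0 1 a x * (w 0 1 x y * w 0 1 y b) =
      w (((n : ℤ) - 1) * (n - 2)) ((n - 1) + (n - 2) * (n - 2)) a b := by
  simp_rw [← mul_sum, sum_w]
  congr 1 <;> ring

/-- the path with three interior vertices -/
theorem path4 {n : ℕ} (a b : Fin n) :
    ∑ x : Fin n, ∑ y : Fin n, ∑ z : Fin n, w 0 1 a x * (w 0 1 x y * (w 0 1 y z * w 0 1 z b)) =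
      w (((n : ℤ) - 1) * ((n - 1) + (n - 2) * (n - 2)))
        ((n - 1) * (n - 2) + (n - 2) * ((n - 1) + (n - 2) * (n - 2))) a b := by
  simp_rw [← mul_sum, sum_w]
  congr 1 <;> ring

theorem triple {n : ℕ} (A B : ℤ) (s x y : Fin n) (h : s ≠ x) :
    ∑ z : Fin n, w 0 1 s z * w 0 1 x z * w A B z y = (A + (n - 1) * B) - w A B s y - w A B x y := by
  have h1 : ∀ z : Fin n, w 0 1 s z * w 0 1 x z * w A B z y =
      w A B z y - (if z = s then w A B s y else 0) - (if z = x then w A B x y else 0) := by
    intro z
    by_cases hs : z = s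
    · subst hs
      rw [if_pos rfl, if_neg h]
      simp [w]
    · by_cases hx : z = x
      · subst hx
        rw [if_pos rfl, if_neg (fun h' => h h'.symm)]
        simp [w]
      · rw [if_neg hs, if_neg hx]
        have e1 : w (n := n) 0 1 s z = 1 := by
          unfold w; rw [if_neg (fun h' => hs h'.symm)]
        have e2 : w (n := n) 0 1 x z = 1 := by
          unfold w; rw [if_neg (fun h' => hx h'.symm)]
        rw [e1, e2]; ring
  simp only [h1, sum_sub_distrib, sum_ite_eq', mem_univ, if_true, sum_w_left]

/-- a triangle on `s`, two further vertices joined by the kernel `w A B` to `y` -/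
theorem fan {n : ℕ} (A B : ℤ) (s y : Fin n) :
    ∑ x : Fin n, ∑ z : Fin n, w 0 1 s x * (w 0 1 s z * w 0 1 x z * (w A B x y * w A B z y)) =
      w (((n : ℤ) - 1) * (n - 2) * (B * B)) (2 * (n - 2) * (A * B) + (n - 2) * (n - 3) * (B * B)) s y := by
  have h1 : ∀ x : Fin n, ∑ z : Fin n, w 0 1 s x * (w 0 1 s z * w 0 1 x z * (w A B x y * w A B z y)) =
      ((A + (n - 1) * B) - w A B s y) * (w 0 1 s x * w A B x y) - w 0 1 s x * w (A * A) (B * B) x y := by
    intro x
    by_cases h : s = x
    · subst h
      simp [w]
    · have h2 : ∑ z : Fin n, w 0 1 s x * (w 0 1 s z * w 0 1 x z * (w A B x y * w A B z y)) =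
          w 0 1 s x * w A B x y * ∑ z : Fin n, w 0 1 s z * w 0 1 x z * w A B z y := by
        rw [mul_sum]
        refine sum_congr rfl fun z _ => ?_
        ring
      rw [h2, triple A B s x y h, ← w_mul]
      ring
  simp only [h1, sum_sub_distrib, ← mul_sum, sum_w]
  unfold w
  split_ifs <;> ring

end Pool.Agent.H19.CR
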