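import Pool.Agent.H19.CR.Graph

/-!
# The number of colourings of the graph
-/

set_option autoImplicit false

namespace Pool.Agent.H19.CR

open Finset

section ring
variable {R : Type} [CommRing R]

/-- path of length 3, equal ends -/
def a3 (x : R) : R := (x - 1) * (x - 2)
/-- path of length 3, different ends -/
def b3 (x : R) : R := (x - 1) + (x - 2) * (x - 2)
/-- path of length 4, equal ends -/
def a4 (x : R) : R := (x - 1) * b3 x
/-- path of length 4, different ends -/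
def b4 (x : R) : R := a3 x + (x - 2) * b3 x
/-- first network, equal ends -/
def A1 (x : R) : R := (x - 1) * (b4 x * b3 x)
/-- first network, different ends -/
def B1 (x : R) : R := a4 x * a3 x + (x - 2) * (b4 x * b3 x)
/-- fan, equal ends -/
def fA (x : R) : R := (x - 1) * (x - 2) * (b3 x * b3 x)
/-- fan, different ends -/
def fB (x : R) : R := 2 * (x - 2) * (a3 x * b3 x) + (x - 2) * (x - 3) * (b3 x * b3 x)
/-- second network, equal ends -/
def A2 (x : R) : R := (x - 1) * fB x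
/-- second network, different ends -/
def B2 (x : R) : R := fA x + (x - 2) * fB x
/-- third network, equal ends -/
def A3 (x : R) : R := (x - 1) * B1 x
/-- third network, different ends -/
def B3 (x : R) : R := A1 x + (x - 2) * B1 x
/-- the chromatic polynomial as a function -/
def chi (x : R) : R := x * (A1 x * A2 x * A3 x) + x * (x - 1) * (B1 x * B2 x * B3 x)

end ring

theorem p3 {n : ℕ} (a b : Fin n) :
    ∑ x : Fin n, ∑ y : Fin n, w 0 1 a x * (w 0 1 x y * w 0 1 y b) = w (a3 (n : ℤ)) (b3 (n : ℤ)) a b :=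
  path3 a b

theorem p4 {n : ℕ} (a b : Fin n) :
    ∑ x : Fin n, ∑ y : Fin n, ∑ z : Fin n, w 0 1 a x * (w 0 1 x y * (w 0 1 y z * w 0 1 z b)) =
      w (a4 (n : ℤ)) (b4 (n : ℤ)) a b :=
  path4 a b

/-- first network -/
theorem net1 {n : ℕ} (s t : Fin n) :
    ∑ x : Fin n, (w (a4 (n : ℤ)) (b4 (n : ℤ)) s x * w (a3 (n : ℤ)) (b3 (n : ℤ)) s x) * w 0 1 x t =
      w (A1 (n : ℤ)) (B1 (n : ℤ)) s t := by
  simp_rw [w_mul, sum_w]
  unfold A1 B1
  congr 1 <;> ring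

/-- second network -/
theorem net2 {n : ℕ} (s t : Fin n) :
    ∑ x : Fin n, ∑ z : Fin n, ∑ y : Fin n,
      w 0 1 s x * (w 0 1 s z * w 0 1 x z *
        (w (a3 (n : ℤ)) (b3 (n : ℤ)) x y * w (a3 (n : ℤ)) (b3 (n : ℤ)) z y)) * w 0 1 y t =
      w (A2 (n : ℤ)) (B2 (n : ℤ)) s t := by
  have h1 : ∑ x : Fin n, ∑ z : Fin n, ∑ y : Fin n,
      w 0 1 s x * (w 0 1 s z * w 0 1 x z *
        (w (a3 (n : ℤ)) (b3 (n : ℤ)) x y * w (a3 (n : ℤ)) (b3 (n : ℤ)) z y)) * w 0 1 y t =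
      ∑ y : Fin n, (∑ x : Fin n, ∑ z : Fin n,
      w 0 1 s x * (w 0 1 s z * w 0 1 x z *
        (w (a3 (n : ℤ)) (b3 (n : ℤ)) x y * w (a3 (n : ℤ)) (b3 (n : ℤ)) z y))) * w 0 1 y t := by
    simp_rw [sum_mul]
    calc _ = ∑ x : Fin n, ∑ y : Fin n, ∑ z : Fin n, w 0 1 s x * (w 0 1 s z * w 0 1 x z *
        (w (a3 (n : ℤ)) (b3 (n : ℤ)) x y * w (a3 (n : ℤ)) (b3 (n : ℤ)) z y)) * w 0 1 y t :=
          sum_congr rfl fun x _ => sum_comm
      _ = _ := sum_comm
  rw [h1]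
  simp_rw [fan, sum_w]
  unfold A2 B2 fA fB
  congr 1 <;> ring

/-- third network -/
theorem net3 {n : ℕ} (s t : Fin n) :
    ∑ x : Fin n, ∑ y : Fin n,
      w 0 1 s x * ((w (a3 (n : ℤ)) (b3 (n : ℤ)) x y * w (a4 (n : ℤ)) (b4 (n : ℤ)) x y) * w 0 1 y t) =
      w (A3 (n : ℤ)) (B3 (n : ℤ)) s t := by
  simp_rw [w_mul, ← mul_sum, sum_w]
  unfold A3 B3 A1 B1
  congr 1 <;> ring

theorem sum_sum_w {n : ℕ} (A B : ℤ) :
    ∑ s : Fin n, ∑ t : Fin n, w A B s t = n * A + n * (n - 1) * B := by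
  have h : ∀ s : Fin n, ∑ t : Fin n, w A B s t = A + (n - 1) * B := by
    intro s
    simp_rw [w_comm A B s]
    exact sum_w_left A B s
  simp_rw [h]
  simp only [sum_const, card_univ, Fintype.card_fin, nsmul_eq_mul]
  ring

/-- product over the edges of the first network -/
theorem prod1 {n : ℕ} (c0 : Fin 2 → Fin n) (c : N1 → Fin n) (d : N2 ⊕ N3 → Fin n) :
    (E1.map fun e => w 0 1 ((Sum.elim c0 (Sum.elim c d) : V → Fin n) e.1)
      ((Sum.elim c0 (Sum.elim c d) : V → Fin n) e.2)).prod =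
    (w 0 1 (c0 0) (c (.inr (.inl 0))) * (w 0 1 (c (.inr (.inl 0))) (c (.inr (.inl 1))) *
      (w 0 1 (c (.inr (.inl 1))) (c (.inr (.inl 2))) * w 0 1 (c (.inr (.inl 2))) (c (.inl 0))))) *
    (w 0 1 (c0 0) (c (.inr (.inr 0))) * (w 0 1 (c (.inr (.inr 0))) (c (.inr (.inr 1))) *
      w 0 1 (c (.inr (.inr 1))) (c (.inl 0)))) * w 0 1 (c (.inl 0)) (c0 1) := by
  simp only [E1, List.map_cons, List.map_nil, List.prod_cons, List.prod_nil, vs, vt, i1, Sum.elim_inl,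
    Sum.elim_inr]
  ring

/-- product over the edges of the second network -/
theorem prod2 {n : ℕ} (c0 : Fin 2 → Fin n) (b : N1 → Fin n) (c : N2 → Fin n) (d : N3 → Fin n) :
    (E2.map fun e => w 0 1 ((Sum.elim c0 (Sum.elim b (Sum.elim c d)) : V → Fin n) e.1)
      ((Sum.elim c0 (Sum.elim b (Sum.elim c d)) : V → Fin n) e.2)).prod =
    w 0 1 (c0 0) (c (.inl 0)) * (w 0 1 (c0 0) (c (.inl 1)) * w 0 1 (c (.inl 0)) (c (.inl 1)) *
      ((w 0 1 (c (.inl 0)) (c (.inr (.inl 0))) * (w 0 1 (c (.inr (.inl 0))) (c (.inr (.inl 1))) *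
        w 0 1 (c (.inr (.inl 1))) (c (.inl 2)))) *
       (w 0 1 (c (.inl 1)) (c (.inr (.inr 0))) * (w 0 1 (c (.inr (.inr 0))) (c (.inr (.inr 1))) *
        w 0 1 (c (.inr (.inr 1))) (c (.inl 2)))))) * w 0 1 (c (.inl 2)) (c0 1) := by
  simp only [E2, List.map_cons, List.map_nil, List.prod_cons, List.prod_nil, vs, vt, i2, Sum.elim_inl,
    Sum.elim_inr]
  ring

/-- product over the edges of the third network -/
theorem prod3 {n : ℕ} (c0 : Fin 2 → Fin n) (a : N1 → Fin n) (b : N2 → Fin n) (c : N3 → Fin n) :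
    (E3.map fun e => w 0 1 ((Sum.elim c0 (Sum.elim a (Sum.elim b c)) : V → Fin n) e.1)
      ((Sum.elim c0 (Sum.elim a (Sum.elim b c)) : V → Fin n) e.2)).prod =
    w 0 1 (c0 0) (c (.inl 0)) *
      (((w 0 1 (c (.inl 0)) (c (.inr (.inl 0))) * (w 0 1 (c (.inr (.inl 0))) (c (.inr (.inl 1))) *
        w 0 1 (c (.inr (.inl 1))) (c (.inl 1)))) *
       (w 0 1 (c (.inl 0)) (c (.inr (.inr 0))) * (w 0 1 (c (.inr (.inr 0))) (c (.inr (.inr 1))) *
        (w 0 1 (c (.inr (.inr 1))) (c (.inr (.inr 2))) * w 0 1 (c (.inr (.inr 2))) (c (.inl 1)))))) *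
      w 0 1 (c (.inl 1)) (c0 1)) := by
  simp only [E3, List.map_cons, List.map_nil, List.prod_cons, List.prod_nil, vs, vt, i3, Sum.elim_inl,
    Sum.elim_inr]
  ring

/-- sum over the interior of the first network -/
theorem S1 {n : ℕ} (s t : Fin n) :
    ∑ c : N1 → Fin n,
      (w 0 1 s (c (.inr (.inl 0))) * (w 0 1 (c (.inr (.inl 0))) (c (.inr (.inl 1))) *
        (w 0 1 (c (.inr (.inl 1))) (c (.inr (.inl 2))) * w 0 1 (c (.inr (.inl 2))) (c (.inl 0))))) *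
      (w 0 1 s (c (.inr (.inr 0))) * (w 0 1 (c (.inr (.inr 0))) (c (.inr (.inr 1))) *
        w 0 1 (c (.inr (.inr 1))) (c (.inl 0)))) * w 0 1 (c (.inl 0)) t =
      w (A1 (n : ℤ)) (B1 (n : ℤ)) s t := by
  rw [sum_arrow_sum, sum_one]
  rw [← net1]
  refine sum_congr rfl fun x _ => ?_
  rw [sum_arrow_sum]
  simp only [Sum.elim_inl, Sum.elim_inr]
  simp_rw [← sum_mul, ← mul_sum, ← sum_mul]
  rw [← p4, ← p3, sum_two, sum_three]
  simp [Matrix.cons_val_zero, Matrix.cons_val_one]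

/-- sum over the interior of the second network -/
theorem S2 {n : ℕ} (s t : Fin n) :
    ∑ c : N2 → Fin n,
      w 0 1 s (c (.inl 0)) * (w 0 1 s (c (.inl 1)) * w 0 1 (c (.inl 0)) (c (.inl 1)) *
      ((w 0 1 (c (.inl 0)) (c (.inr (.inl 0))) * (w 0 1 (c (.inr (.inl 0))) (c (.inr (.inl 1))) *
        w 0 1 (c (.inr (.inl 1))) (c (.inl 2)))) *
       (w 0 1 (c (.inl 1)) (c (.inr (.inr 0))) * (w 0 1 (c (.inr (.inr 0))) (c (.inr (.inr 1))) *
        w 0 1 (c (.inr (.inr 1))) (c (.inl 2)))))) * w 0 1 (c (.inl 2)) t =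
      w (A2 (n : ℤ)) (B2 (n : ℤ)) s t := by
  rw [sum_arrow_sum, sum_three]
  rw [← net2]
  refine sum_congr rfl fun x _ => sum_congr rfl fun z _ => sum_congr rfl fun y _ => ?_
  rw [sum_arrow_sum]
  simp only [Sum.elim_inl, Sum.elim_inr]
  simp_rw [← sum_mul, ← mul_sum, ← sum_mul]
  rw [← p3, ← p3, sum_two, sum_two]
  simp [Matrix.cons_val_zero, Matrix.cons_val_one]

/-- sum over the interior of the third network -/
theorem S3 {n : ℕ} (s t : Fin n) :
    ∑ c : N3 → Fin n,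
      w 0 1 s (c (.inl 0)) *
      (((w 0 1 (c (.inl 0)) (c (.inr (.inl 0))) * (w 0 1 (c (.inr (.inl 0))) (c (.inr (.inl 1))) *
        w 0 1 (c (.inr (.inl 1))) (c (.inl 1)))) *
       (w 0 1 (c (.inl 0)) (c (.inr (.inr 0))) * (w 0 1 (c (.inr (.inr 0))) (c (.inr (.inr 1))) *
        (w 0 1 (c (.inr (.inr 1))) (c (.inr (.inr 2))) * w 0 1 (c (.inr (.inr 2))) (c (.inl 1)))))) *
      w 0 1 (c (.inl 1)) t) =
      w (A3 (n : ℤ)) (B3 (n : ℤ)) s t := by
  rw [sum_arrow_sum, sum_two]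
  rw [← net3]
  refine sum_congr rfl fun x _ => sum_congr rfl fun y _ => ?_
  rw [sum_arrow_sum]
  simp only [Sum.elim_inl, Sum.elim_inr]
  simp_rw [← mul_sum, ← sum_mul, ← mul_sum, ← sum_mul]
  rw [← p3, ← p4, sum_two, sum_three]
  simp [Matrix.cons_val_zero, Matrix.cons_val_one]

/-- the number of colourings -/
theorem count (n : ℕ) : (Nat.card (G.Coloring (Fin n)) : ℤ) = chi (n : ℤ) := by
  rw [card_coloring, sum_arrow_sum]
  have h : ∀ c0 : Fin 2 → Fin n, ∑ b : N1 ⊕ (N2 ⊕ N3) → Fin n,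
      (E.map fun e => w 0 1 ((Sum.elim c0 b : V → Fin n) e.1) ((Sum.elim c0 b : V → Fin n) e.2)).prod =
      w (A1 (n : ℤ)) (B1 (n : ℤ)) (c0 0) (c0 1) * (w (A2 (n : ℤ)) (B2 (n : ℤ)) (c0 0) (c0 1) *
        w (A3 (n : ℤ)) (B3 (n : ℤ)) (c0 0) (c0 1)) := by
    intro c0
    rw [sum_arrow_sum, ← S1, ← S2, ← S3, sum_mul]
    refine sum_congr rfl fun c1 _ => ?_
    rw [sum_arrow_sum, sum_mul_sum, mul_sum]
    refine sum_congr rfl fun c2 _ => ?_
    rw [mul_sum]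
    refine sum_congr rfl fun c3 _ => ?_
    rw [E, List.map_append, List.map_append, List.prod_append, List.prod_append, prod1, prod2, prod3]
  simp_rw [h, w_mul]
  rw [sum_two]
  simp only [Matrix.cons_val_zero, Matrix.cons_val_one]
  rw [sum_sum_w]
  unfold chi
  ring

end Pool.Agent.H19.CR
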