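import Pool.Agent.H19.CR.Basic

/-!
# A graph with 22 vertices and 27 edges whose chromatic polynomial vanishes at `i`

The graph is glued at two vertices `s`, `t` from three networks:
* `s` joined to `x` by paths of lengths 4 and 3, and the edge `x t`;
* a triangle `s b₀ b₁`, paths of length 3 from `b₀` and from `b₁` to `y`, and the edge `y t`;
* the edges `s c₀` and `c₁ t`, and paths of lengths 3 and 4 from `c₀` to `c₁`.
-/

set_option autoImplicit false

namespace Pool.Agent.H19.CR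

open Finset

/-- interior of the first network: `x`, and the interiors of two paths -/
abbrev N1 : Type := Fin 1 ⊕ (Fin 3 ⊕ Fin 2)
/-- interior of the second network: `b₀, b₁, y`, and the interiors of two paths -/
abbrev N2 : Type := Fin 3 ⊕ (Fin 2 ⊕ Fin 2)
/-- interior of the third network: `c₀, c₁`, and the interiors of two paths -/
abbrev N3 : Type := Fin 2 ⊕ (Fin 2 ⊕ Fin 3)
/-- the vertices -/
abbrev V : Type := Fin 2 ⊕ (N1 ⊕ (N2 ⊕ N3))

/-- the vertex `s` -/
def vs : V := .inl 0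
/-- the vertex `t` -/
def vt : V := .inl 1
/-- embedding of the first interior -/
def i1 (v : N1) : V := .inr (.inl v)
/-- embedding of the second interior -/
def i2 (v : N2) : V := .inr (.inr (.inl v))
/-- embedding of the third interior -/
def i3 (v : N3) : V := .inr (.inr (.inr v))

/-- edges of the first network -/
def E1 : List (V × V) :=
  [(vs, i1 (.inr (.inl 0))), (i1 (.inr (.inl 0)), i1 (.inr (.inl 1))), (i1 (.inr (.inl 1)), i1 (.inr (.inl 2))),
   (i1 (.inr (.inl 2)), i1 (.inl 0)),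
   (vs, i1 (.inr (.inr 0))), (i1 (.inr (.inr 0)), i1 (.inr (.inr 1))), (i1 (.inr (.inr 1)), i1 (.inl 0)),
   (i1 (.inl 0), vt)]

/-- edges of the second network -/
def E2 : List (V × V) :=
  [(vs, i2 (.inl 0)), (vs, i2 (.inl 1)), (i2 (.inl 0), i2 (.inl 1)),
   (i2 (.inl 0), i2 (.inr (.inl 0))), (i2 (.inr (.inl 0)), i2 (.inr (.inl 1))), (i2 (.inr (.inl 1)), i2 (.inl 2)),
   (i2 (.inl 1), i2 (.inr (.inr 0))), (i2 (.inr (.inr 0)), i2 (.inr (.inr 1))), (i2 (.inr (.inr 1)), i2 (.inl 2)),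
   (i2 (.inl 2), vt)]

/-- edges of the third network -/
def E3 : List (V × V) :=
  [(vs, i3 (.inl 0)),
   (i3 (.inl 0), i3 (.inr (.inl 0))), (i3 (.inr (.inl 0)), i3 (.inr (.inl 1))), (i3 (.inr (.inl 1)), i3 (.inl 1)),
   (i3 (.inl 0), i3 (.inr (.inr 0))), (i3 (.inr (.inr 0)), i3 (.inr (.inr 1))),
   (i3 (.inr (.inr 1)), i3 (.inr (.inr 2))), (i3 (.inr (.inr 2)), i3 (.inl 1)),
   (i3 (.inl 1), vt)]

/-- all edges -/
def E : List (V × V) := E1 ++ (E2 ++ E3)

theorem E_ne : ∀ e ∈ E, e.1 ≠ e.2 := by decide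

/-- the graph -/
def G : SimpleGraph V := SimpleGraph.fromRel (fun u v => (u, v) ∈ E)

theorem proper_iff {α : Type} (c : V → α) :
    (∀ u v : V, G.Adj u v → c u ≠ c v) ↔ ∀ e ∈ E, c e.1 ≠ c e.2 := by
  constructor
  · intro h e he
    refine h e.1 e.2 ?_
    rw [G, SimpleGraph.fromRel_adj]
    exact ⟨E_ne e he, Or.inl he⟩
  · intro h u v huv
    rw [G, SimpleGraph.fromRel_adj] at huv
    rcases huv.2 with h1 | h1
    · exact h (u, v) h1
    · exact (h (v, u) h1).symm

theorem prod_w {n : ℕ} (c : V → Fin n) (L : List (V × V)) :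
    (L.map fun e => w 0 1 (c e.1) (c e.2)).prod = if ∀ e ∈ L, c e.1 ≠ c e.2 then 1 else 0 := by
  induction L with
  | nil => simp
  | cons e L ih =>
    rw [List.map_cons, List.prod_cons, ih]
    by_cases h : c e.1 = c e.2
    · have h2 : ¬ ∀ e' ∈ e :: L, c e'.1 ≠ c e'.2 := fun h' => h' e (List.mem_cons_self) h
      rw [if_neg h2, w, if_pos h, zero_mul]
    · rw [w, if_neg h, one_mul]
      by_cases h3 : ∀ e' ∈ L, c e'.1 ≠ c e'.2
      · rw [if_pos h3, if_pos]
        intro e' he'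
        rcases List.mem_cons.mp he' with rfl | h4
        · exact h
        · exact h3 e' h4
      · rw [if_neg h3, if_neg]
        exact fun h' => h3 fun e' he' => h' e' (List.mem_cons_of_mem _ he')

theorem card_coloring (n : ℕ) :
    (Nat.card (G.Coloring (Fin n)) : ℤ) = ∑ c : V → Fin n, (E.map fun e => w 0 1 (c e.1) (c e.2)).prod := by
  classical
  have e : G.Coloring (Fin n) ≃ {c : V → Fin n // ∀ u v : V, G.Adj u v → c u ≠ c v} :=
    { toFun := fun C => ⟨fun v => C v, fun u v h => C.valid h⟩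
      invFun := fun c => SimpleGraph.Coloring.mk c.1 (fun {u v} h => c.2 u v h)
      left_inv := fun C => by ext v; rfl
      right_inv := fun c => by ext v; rfl }
  rw [Nat.card_congr e, Nat.card_eq_fintype_card, Fintype.card_subtype, card_eq_sum_ones, sum_filter]
  push_cast
  refine sum_congr rfl fun c _ => ?_
  rw [prod_w]
  by_cases h : ∀ u v : V, G.Adj u v → c u ≠ c v
  · rw [if_pos h, if_pos ((proper_iff c).1 h)]
  · rw [if_neg h, if_neg (fun h' => h ((proper_iff c).2 h'))]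

theorem sum_arrow_sum {α β γ : Type} [Fintype α] [Fintype β] [Fintype γ] [DecidableEq α] [DecidableEq β]
    (F : (α ⊕ β → γ) → ℤ) :
    ∑ c : α ⊕ β → γ, F c = ∑ a : α → γ, ∑ b : β → γ, F (Sum.elim a b) := by
  rw [← (Equiv.sumArrowEquivProdArrow α β γ).symm.sum_comp, Fintype.sum_prod_type]
  rfl

theorem sum_arrow_succ {γ : Type} [Fintype γ] {k : ℕ} (F : (Fin (k + 1) → γ) → ℤ) :
    ∑ c : Fin (k + 1) → γ, F c = ∑ a : γ, ∑ c : Fin k → γ, F (Fin.cons a c) := by
  rw [← (Fin.consEquiv (fun _ => γ)).sum_comp, Fintype.sum_prod_type]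
  rfl

theorem sum_arrow_zero {γ : Type} [Fintype γ] (F : (Fin 0 → γ) → ℤ) :
    ∑ c : Fin 0 → γ, F c = F ![] := by
  rw [Fintype.sum_unique]
  congr 1

theorem sum_two {γ : Type} [Fintype γ] (F : (Fin 2 → γ) → ℤ) :
    ∑ c : Fin 2 → γ, F c = ∑ a : γ, ∑ b : γ, F ![a, b] := by
  simp only [sum_arrow_succ, sum_arrow_zero]
  rfl

theorem sum_one {γ : Type} [Fintype γ] (F : (Fin 1 → γ) → ℤ) :
    ∑ c : Fin 1 → γ, F c = ∑ a : γ, F ![a] := by
  simp only [sum_arrow_succ, sum_arrow_zero]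
  rfl

theorem sum_three {γ : Type} [Fintype γ] (F : (Fin 3 → γ) → ℤ) :
    ∑ c : Fin 3 → γ, F c = ∑ a : γ, ∑ b : γ, ∑ d : γ, F ![a, b, d] := by
  simp only [sum_arrow_succ, sum_arrow_zero]
  rfl

end Pool.Agent.H19.CR
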