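import Pool.Agent.H19.CR.Count

/-!
# The imaginary unit is a chromatic root
-/

set_option autoImplicit false

namespace Pool.Agent.H19.CR

open Polynomial

theorem map_chi {R S : Type} [CommRing R] [CommRing S] (f : R →+* S) (x : R) : f (chi x) = chi (f x) := by
  simp only [chi, A1, A2, A3, B1, B2, B3, fA, fB, a3, b3, a4, b4, map_add, map_mul, map_sub, map_one,
    map_ofNat]

theorem eval_chi (n : ℤ) : (chi (X : ℤ[X])).eval n = chi n := by
  have h := map_chi (Polynomial.evalRingHom n) (X : ℤ[X])
  simpa using h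

theorem aeval_chi (z : ℂ) : Polynomial.aeval z (chi (X : ℤ[X])) = chi z := by
  have h := map_chi ((Polynomial.aeval z : ℤ[X] →ₐ[ℤ] ℂ) : ℤ[X] →+* ℂ) (X : ℤ[X])
  simpa using h

/-- a Gaussian integer as a complex number -/
theorem gmul (a b c d : ℂ) :
    (a + b * Complex.I) * (c + d * Complex.I) = (a * c - b * d) + (a * d + b * c) * Complex.I := by
  linear_combination (b * d) * Complex.I_sq

theorem vb3 : b3 Complex.I = 2 + (-3) * Complex.I := by
  unfold b3
  linear_combination Complex.I_sq

theorem va3 : a3 Complex.I = 1 + (-3) * Complex.I := by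
  unfold a3
  linear_combination Complex.I_sq

theorem va4 : a4 Complex.I = 1 + 5 * Complex.I := by
  unfold a4
  rw [vb3]
  linear_combination (-3) * Complex.I_sq

theorem vb4 : b4 Complex.I = 0 + 5 * Complex.I := by
  unfold b4
  rw [vb3, va3]
  linear_combination (-3) * Complex.I_sq

theorem vA1 : A1 Complex.I = (-25) + 5 * Complex.I := by
  unfold A1
  rw [vb3, vb4, gmul]
  linear_combination (10) * Complex.I_sq

theorem vB1 : B1 Complex.I = (-24) + (-3) * Complex.I := by
  unfold B1
  rw [vb3, vb4, va3, va4, gmul, gmul]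
  linear_combination (10) * Complex.I_sq

theorem vfA : fA Complex.I = (-41) + 3 * Complex.I := by
  unfold fA
  rw [vb3]
  have h1 : (2 + (-3) * Complex.I) * (2 + (-3) * Complex.I) = -5 + (-12) * Complex.I := by
    rw [gmul]; ring
  have h2 : (Complex.I - 1) * (Complex.I - 2) = 1 + (-3) * Complex.I := by
    linear_combination Complex.I_sq
  rw [h1, h2, gmul]
  ring

theorem vfB : fB Complex.I = (-39) + (-13) * Complex.I := by
  unfold fB
  rw [vb3, va3]
  have h1 : (2 + (-3) * Complex.I) * (2 + (-3) * Complex.I) = -5 + (-12) * Complex.I := by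
    rw [gmul]; ring
  have h2 : (1 + (-3) * Complex.I) * (2 + (-3) * Complex.I) = -7 + (-9) * Complex.I := by
    rw [gmul]; ring
  rw [h1, h2]
  have h3 : (Complex.I - 2) * (Complex.I - 3) = 5 + (-5) * Complex.I := by
    linear_combination Complex.I_sq
  rw [h3, gmul]
  linear_combination (-18) * Complex.I_sq

theorem vA2 : A2 Complex.I = 52 + (-26) * Complex.I := by
  unfold A2
  rw [vfB]
  linear_combination (-13) * Complex.I_sq

theorem vB2 : B2 Complex.I = 50 + (-10) * Complex.I := by
  unfold B2
  rw [vfA, vfB]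
  linear_combination (-13) * Complex.I_sq

theorem vA3 : A3 Complex.I = 27 + (-21) * Complex.I := by
  unfold A3
  rw [vB1]
  linear_combination (-3) * Complex.I_sq

theorem vB3 : B3 Complex.I = 26 + (-13) * Complex.I := by
  unfold B3
  rw [vA1, vB1]
  linear_combination (-3) * Complex.I_sq

theorem chi_I : chi Complex.I = 0 := by
  unfold chi
  rw [vA1, vA2, vA3, vB1, vB2, vB3, gmul, gmul, gmul, gmul]
  linear_combination (18330 * Complex.I) * Complex.I_sq

end Pool.Agent.H19.CR
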